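import Pool.Agent.H8.DE.Targets

/-! PW: the computation of the bound. -/

set_option autoImplicit false

namespace Pool.Agent.H86.DE

open Pool.Agent.H69.Sp Pool.Agent.H69.VR Pool.Agent.H8.VR Pool.Agent.H8.JS Pool.Agent.H8.MC
  Pool.Agent.H8.DE

/-- the state with the counters `0`, `k`, `k + 1`, `k + 2` given, the others zero -/
def Sk (k a b c d : ℕ) : Z0 :=
  ⟨fun j => if j = 0 then a else if j = k then b else if j = k + 1 then c else
    if j = k + 2 then d else 0, 0, fun _ => false⟩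

theorem sk_inc0 (k a b c d : ℕ) : Ex (.inc 0) (Sk k a b c d) (Sk k (a + 1) b c d) 1 := by
  have h := Ex.inc 0 (Sk k a b c d)
  have e : (⟨Function.update (Sk k a b c d).n 0 ((Sk k a b c d).n 0 + 1), (Sk k a b c d).h,
      (Sk k a b c d).w⟩ : Z0) = Sk k (a + 1) b c d := by
    unfold Sk
    ext j
    · simp only [Function.update_apply]
      split_ifs <;> simp_all
    · rfl
    · rfl
  rwa [e] at h

theorem sk_dec0 (k a b c d : ℕ) : Ex (.dec 0) (Sk k (a + 1) b c d) (Sk k a b c d) 1 := by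
  have h := Ex.dec 0 (Sk k (a + 1) b c d)
  have e : (⟨Function.update (Sk k (a + 1) b c d).n 0 ((Sk k (a + 1) b c d).n 0 - 1),
      (Sk k (a + 1) b c d).h, (Sk k (a + 1) b c d).w⟩ : Z0) = Sk k a b c d := by
    unfold Sk
    ext j
    · simp only [Function.update_apply]
      split_ifs <;> simp_all
    · rfl
    · rfl
  rwa [e] at h

theorem sk_inck (k a b c d : ℕ) (hk : 0 < k) :
    Ex (.inc k) (Sk k a b c d) (Sk k a (b + 1) c d) 1 := by
  have h := Ex.inc k (Sk k a b c d)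
  have e : (⟨Function.update (Sk k a b c d).n k ((Sk k a b c d).n k + 1), (Sk k a b c d).h,
      (Sk k a b c d).w⟩ : Z0) = Sk k a (b + 1) c d := by
    unfold Sk
    ext j
    · simp only [Function.update_apply]
      split_ifs <;> omega
    · rfl
    · rfl
  rwa [e] at h

theorem sk_deck (k a b c d : ℕ) (hk : 0 < k) :
    Ex (.dec k) (Sk k a (b + 1) c d) (Sk k a b c d) 1 := by
  have h := Ex.dec k (Sk k a (b + 1) c d)
  have e : (⟨Function.update (Sk k a (b + 1) c d).n k ((Sk k a (b + 1) c d).n k - 1),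
      (Sk k a (b + 1) c d).h, (Sk k a (b + 1) c d).w⟩ : Z0) = Sk k a b c d := by
    unfold Sk
    ext j
    · simp only [Function.update_apply]
      split_ifs <;> omega
    · rfl
    · rfl
  rwa [e] at h

theorem sk_inck1 (k a b c d : ℕ) :
    Ex (.inc (k + 1)) (Sk k a b c d) (Sk k a b (c + 1) d) 1 := by
  have h := Ex.inc (k + 1) (Sk k a b c d)
  have e : (⟨Function.update (Sk k a b c d).n (k + 1) ((Sk k a b c d).n (k + 1) + 1),
      (Sk k a b c d).h, (Sk k a b c d).w⟩ : Z0) = Sk k a b (c + 1) d := by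
    unfold Sk
    ext j
    · simp only [Function.update_apply]
      split_ifs <;> first | omega | simp_all
    · rfl
    · rfl
  rwa [e] at h

theorem sk_deck1 (k a b c d : ℕ) :
    Ex (.dec (k + 1)) (Sk k a b (c + 1) d) (Sk k a b c d) 1 := by
  have h := Ex.dec (k + 1) (Sk k a b (c + 1) d)
  have e : (⟨Function.update (Sk k a b (c + 1) d).n (k + 1)
      ((Sk k a b (c + 1) d).n (k + 1) - 1),
      (Sk k a b (c + 1) d).h, (Sk k a b (c + 1) d).w⟩ : Z0) = Sk k a b c d := by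
    unfold Sk
    ext j
    · simp only [Function.update_apply]
      split_ifs <;> first | omega | simp_all
    · rfl
    · rfl
  rwa [e] at h

theorem sk_inck2 (k a b c d : ℕ) :
    Ex (.inc (k + 2)) (Sk k a b c d) (Sk k a b c (d + 1)) 1 := by
  have h := Ex.inc (k + 2) (Sk k a b c d)
  have e : (⟨Function.update (Sk k a b c d).n (k + 2) ((Sk k a b c d).n (k + 2) + 1),
      (Sk k a b c d).h, (Sk k a b c d).w⟩ : Z0) = Sk k a b c (d + 1) := by
    unfold Sk
    ext j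
    · simp only [Function.update_apply]
      split_ifs <;> first | omega | simp_all
    · rfl
    · rfl
  rwa [e] at h

theorem sk_deck2 (k a b c d : ℕ) :
    Ex (.dec (k + 2)) (Sk k a b c (d + 1)) (Sk k a b c d) 1 := by
  have h := Ex.dec (k + 2) (Sk k a b c (d + 1))
  have e : (⟨Function.update (Sk k a b c (d + 1)).n (k + 2)
      ((Sk k a b c (d + 1)).n (k + 2) - 1),
      (Sk k a b c (d + 1)).h, (Sk k a b c (d + 1)).w⟩ : Z0) = Sk k a b c d := by
    unfold Sk
    ext j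
    · simp only [Function.update_apply]
      split_ifs <;> first | omega | simp_all
    · rfl
    · rfl
  rwa [e] at h

theorem sk_n0 (k a b c d : ℕ) : (Sk k a b c d).n 0 = a := by simp [Sk]

theorem sk_nk (k a b c d : ℕ) (hk : 0 < k) : (Sk k a b c d).n k = b := by
  simp [Sk, hk.ne']

theorem sk_nk1 (k a b c d : ℕ) : (Sk k a b c d).n (k + 1) = c := by simp [Sk]

theorem sk_nk2 (k a b c d : ℕ) : (Sk k a b c d).n (k + 2) = d := by simp [Sk]

/-- the first inner loop -/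
theorem ex_l1 (k b : ℕ) : ∀ a c d : ℕ,
    Ex (.whn 0 (.seq (.dec 0) (.seq (.inc (k + 1)) (.inc (k + 2))))) (Sk k a b c d)
      (Sk k 0 b (c + a) (d + a)) (4 * a + 1) := by
  intro a
  induction a with
  | zero =>
    intro c d
    exact Ex.whnf 0 _ _ (sk_n0 k 0 b c d)
  | succ a ih =>
    intro c d
    have h1 := Ex.seq _ _ _ _ _ _ _ (sk_dec0 k a b c d)
      (Ex.seq _ _ _ _ _ _ _ (sk_inck1 k a b c d) (sk_inck2 k a b (c + 1) d))
    have h2 := Ex.whnt 0 _ _ _ _ _ _ (by rw [sk_n0]; omega) h1 (ih (c + 1) (d + 1))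
    have e1 : c + 1 + a = c + (a + 1) := by ring
    have e2 : d + 1 + a = d + (a + 1) := by ring
    have e3 : 1 + (1 + 1) + (4 * a + 1) + 1 = 4 * (a + 1) + 1 := by ring
    rw [e1, e2, e3] at h2
    exact h2

/-- the second inner loop -/
theorem ex_l2 (k b c : ℕ) : ∀ d a : ℕ,
    Ex (.whn (k + 2) (.seq (.dec (k + 2)) (.inc 0))) (Sk k a b c d)
      (Sk k (a + d) b c 0) (3 * d + 1) := by
  intro d
  induction d with
  | zero =>
    intro a
    exact Ex.whnf (k + 2) _ _ (sk_nk2 k a b c 0)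
  | succ d ih =>
    intro a
    have h1 := Ex.seq _ _ _ _ _ _ _ (sk_deck2 k a b c d) (sk_inc0 k a b c d)
    have h2 := Ex.whnt (k + 2) _ _ _ _ _ _ (by rw [sk_nk2]; omega) h1 (ih (a + 1))
    have e1 : a + 1 + d = a + (d + 1) := by ring
    have e3 : 1 + 1 + (3 * d + 1) + 1 = 3 * (d + 1) + 1 := by ring
    rw [e1, e3] at h2
    exact h2

/-- the body of the multiplication -/
def bdy (k : ℕ) : P0 :=
  .seq (.dec k) (.seq (.whn 0 (.seq (.dec 0) (.seq (.inc (k + 1)) (.inc (k + 2)))))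
    (.seq (.whn (k + 2) (.seq (.dec (k + 2)) (.inc 0))) (.inc (k + 1))))

theorem ex_bdy (k n b c : ℕ) (hk : 0 < k) :
    Ex (bdy k) (Sk k n (b + 1) c 0) (Sk k n b (c + (n + 1)) 0) (7 * n + 4) := by
  have h1 := Ex.seq _ _ _ _ _ _ _ (sk_deck k n b c 0 hk) (Ex.seq _ _ _ _ _ _ _ (ex_l1 k b n c 0)
    (Ex.seq _ _ _ _ _ _ _ (ex_l2 k b (c + n) (0 + n) 0) (sk_inck1 k (0 + (0 + n)) b (c + n) 0)))
  have e1 : 0 + (0 + n) = n := by omega
  have e2 : 1 + (4 * n + 1 + (3 * (0 + n) + 1 + 1)) = 7 * n + 4 := by ring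
  have e3 : c + n + 1 = c + (n + 1) := by ring
  rw [e1, e2, e3] at h1
  exact h1

theorem ex_l4 (k n : ℕ) (hk : 0 < k) : ∀ b c : ℕ,
    Ex (.whn k (bdy k)) (Sk k n b c 0) (Sk k n 0 (c + b * (n + 1)) 0) (b * (7 * n + 5) + 1) := by
  intro b
  induction b with
  | zero =>
    intro c
    have h := Ex.whnf k (bdy k) _ (sk_nk k n 0 c 0 hk)
    simpa using h
  | succ b ih =>
    intro c
    have h2 := Ex.whnt k _ _ _ _ _ _ (by rw [sk_nk _ _ _ _ _ hk]; omega) (ex_bdy k n b c hk)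
      (ih (c + (n + 1)))
    have e1 : c + (n + 1) + b * (n + 1) = c + (b + 1) * (n + 1) := by ring
    have e3 : 7 * n + 4 + (b * (7 * n + 5) + 1) + 1 = (b + 1) * (7 * n + 5) + 1 := by ring
    rw [e1, e3] at h2
    exact h2

theorem ex_l5 (k n : ℕ) (hk : 0 < k) : ∀ c b : ℕ,
    Ex (.whn (k + 1) (.seq (.dec (k + 1)) (.inc k))) (Sk k n b c 0) (Sk k n (b + c) 0 0)
      (3 * c + 1) := by
  intro c
  induction c with
  | zero =>
    intro b
    exact Ex.whnf (k + 1) _ _ (sk_nk1 k n b 0 0)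
  | succ c ih =>
    intro b
    have h1 := Ex.seq _ _ _ _ _ _ _ (sk_deck1 k n b c 0) (sk_inck k n b c 0 hk)
    have h2 := Ex.whnt (k + 1) _ _ _ _ _ _ (by rw [sk_nk1]; omega) h1 (ih (b + 1))
    have e1 : b + 1 + c = b + (c + 1) := by ring
    have e3 : 1 + 1 + (3 * c + 1) + 1 = 3 * (c + 1) + 1 := by ring
    rw [e1, e3] at h2
    exact h2

/-- the multiplication -/
def mul' (k : ℕ) : P0 :=
  .seq (.whn k (bdy k)) (.whn (k + 1) (.seq (.dec (k + 1)) (.inc k)))

theorem ex_mul (k n b : ℕ) (hk : 0 < k) :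
    Ex (mul' k) (Sk k n b 0 0) (Sk k n (b * (n + 1)) 0 0) (b * (10 * n + 8) + 2) := by
  have h1 := Ex.seq _ _ _ _ _ _ _ (ex_l4 k n hk b 0) (ex_l5 k n hk (0 + b * (n + 1)) 0)
  have e1 : 0 + (0 + b * (n + 1)) = b * (n + 1) := by ring
  have e2 : b * (7 * n + 5) + 1 + (3 * (0 + b * (n + 1)) + 1) = b * (10 * n + 8) + 2 := by ring
  rw [e1, e2] at h1
  exact h1

/-- the program -/
def prg (k : ℕ) : ℕ → P0
  | 0 => .inc k
  | K + 1 => .seq (prg k K) (mul' k)

theorem ex_prg (k : ℕ) (hk : 0 < k) (n K : ℕ) :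
    ∃ t ≤ (12 * K + 1) * (n + 1) ^ K,
      Ex (prg k K) (Sk k n 0 0 0) (Sk k n ((n + 1) ^ K) 0 0) t := by
  induction K with
  | zero =>
    refine ⟨1, by simp, ?_⟩
    rw [pow_zero]
    exact sk_inck k n 0 0 0 hk
  | succ K ih =>
    obtain ⟨t, ht, hex⟩ := ih
    have h1 := Ex.seq _ _ _ _ _ _ _ hex (ex_mul k n ((n + 1) ^ K) hk)
    refine ⟨_, ?_, by rw [pow_succ]; exact h1⟩
    have h2 : 1 ≤ (n + 1) ^ K := Nat.one_le_pow _ _ (by omega)
    have h3 : (n + 1) ^ K * (10 * n + 8) + 2 ≤ 12 * ((n + 1) ^ K * (n + 1)) := by nlinarith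
    have h4 : (12 * K + 1) * (n + 1) ^ K ≤ (12 * K + 1) * ((n + 1) ^ K * (n + 1)) := by
      apply Nat.mul_le_mul_left
      nlinarith
    rw [pow_succ]
    calc t + ((n + 1) ^ K * (10 * n + 8) + 2)
        ≤ (12 * K + 1) * ((n + 1) ^ K * (n + 1)) + 12 * ((n + 1) ^ K * (n + 1)) :=
          add_le_add (ht.trans h4) h3
      _ = (12 * (K + 1) + 1) * ((n + 1) ^ K * (n + 1)) := by ring

theorem pf_PW : D_PW := by
  intro k K hk
  refine ⟨prg k K, 12 * K + 1, K, fun n => ?_⟩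
  obtain ⟨t, ht, hex⟩ := ex_prg k hk n K
  refine ⟨t, ht, ?_⟩
  have e1 : Sk k n 0 0 0 = z0 n := by
    unfold Sk z0
    ext j
    · simp
    · rfl
    · rfl
  have e2 : Sk k n ((n + 1) ^ K) 0 0 = en k ((n + 1) ^ K) (fun _ => 0) (i1 n) := by
    unfold Sk en i1
    ext j
    · simp only
      split_ifs <;> omega
    · rfl
    · rfl
  rw [← e1, ← e2]
  exact hex

end Pool.Agent.H86.DE
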